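import Pool.Agent.Helper50.CG.Grow
import Pool.Agent.Helper50.CH.Asm

/-!
# Slowly modulated sums, derivatives only for `u ≥ b`, running maximum of the speed: the assembly
-/

set_option autoImplicit false

open Finset MeasureTheory Filter Topology
open Pool.Agent.Helper99.MS (GB ff mr ell)
open Pool.Agent.Helper71.ST (Gt)
open Pool.Agent.Helper50.CH (modulated mod_le sqrt_one_le mo StmtCore StmtLv Gt_eq norm_Sw ev_H ev_U win_small)

namespace Pool.Agent.Helper50.CG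

theorem asm (hlv : StmtLv) (hcore : StmtCore) {δ : ℝ} (hδ : 0 < δ) (hδ2 : δ < 1 / 2) {θ θ1 θ2 : ℝ → ℝ} {K b : ℝ} (hK : 0 ≤ K) (hb : Real.exp 1 ≤ b)
    (hθ : ∀ u : ℝ, b ≤ u → HasDerivAt θ (θ1 u) u ∧ HasDerivAt θ1 (θ2 u) u)
    (h2 : ∀ u : ℝ, b ≤ u → |θ2 u| ≤ K * (u⁻¹ * Real.log u ^ (-(9 / 10) : ℝ)))
    (hunb : ∀ C : ℝ, ∃ u : ℝ, b ≤ u ∧ C < |θ1 u|) (x1 : ℝ) :
    ∃ x : ℝ, x1 ≤ x ∧ ∀ v : ℝ, b ≤ v → v ≤ Real.log x → Real.exp (Real.posLog |θ1 v| ^ (1 / 2 - δ)) * Real.sqrt x < ‖modulated mo θ x‖ := by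
  by_contra hcon
  push Not at hcon
  have hb1 : 1 ≤ b := by
    have := Real.add_one_lt_exp (one_ne_zero (α := ℝ))
    linarith
  have hb0 : 0 ≤ b := by linarith
  set x0 := max x1 (Real.exp b) with hx0def
  have hx0 : Real.exp b ≤ x0 := le_max_right _ _
  have hneg : ∀ x : ℝ, x0 ≤ x → ∃ v : ℝ, b ≤ v ∧ v ≤ Real.log x ∧ ‖modulated mo θ x‖ ≤ Real.exp (Real.posLog |θ1 v| ^ (1 / 2 - δ)) * Real.sqrt x := by
    intro x hx
    obtain ⟨v, h1, h2, h3⟩ := hcon x ((le_max_left _ _).trans hx)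
    exact ⟨v, h1, h2, h3⟩
  have ha : ∀ n : ℕ, |((mo n : ℤ) : ℝ)| ≤ 1 := Pool.Agent.Helper99.MS.abs_mr
  have hθ' : ∀ u : ℝ, b ≤ u → HasDerivAt θ (θ1 u) u := fun u hu => (hθ u hu).1
  have hd : ∀ u : ℝ, b ≤ u → HasDerivAt θ1 (θ2 u) u := fun u hu => (hθ u hu).2
  have hc : ∀ u : ℝ, b ≤ u → ContinuousAt θ1 u := fun u hu => (hd u hu).continuousAt
  have hs := speed_le hb hK hd h2
  have hK1 : 0 ≤ |θ1 b| := abs_nonneg _
  set K1 := |θ1 b| with hK1def
  have hp0 : (0:ℝ) ≤ 1 / 2 - δ := by linarith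
  have hp1 : 1 / 2 - δ ≤ 1 := by linarith
  obtain ⟨B, hB⟩ := grow hb hp0 hp1 hK hK1 hθ' hc hs hneg
  obtain ⟨c, T0, -, hcore⟩ := hcore B
  set e := min (δ / 2) (1 / 4) with he
  have he0 : 0 < e := lt_min (by positivity) (by norm_num)
  have he4 : e ≤ 1 / 4 := min_le_right _ _
  have heδ : e < δ := (min_le_left _ _).trans_lt (by linarith)
  obtain ⟨V1, H1, hlv⟩ := hlv e he0 he4
  -- the conditions on `U`
  have hlogU : ∀ᶠ U : ℝ in atTop, b ≤ U - 3 * Real.log U := by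
    have h5 : (fun x : ℝ => Real.log x) =o[atTop] fun x => x := Real.isLittleO_log_id_atTop
    have h6 := h5.bound (show (0:ℝ) < 1 / 6 by norm_num)
    filter_upwards [h6, eventually_ge_atTop (1 : ℝ), eventually_ge_atTop (2 * b)] with U b1 b2 b3
    rw [Real.norm_of_nonneg (Real.log_nonneg b2), Real.norm_of_nonneg (by linarith : (0:ℝ) ≤ U)] at b1
    linarith
  have hTU : ∀ᶠ U : ℝ in atTop, K1 + 10 * K * Real.log U ^ (1 / 10 : ℝ) ≤ U := by
    have h5 : Tendsto (fun U : ℝ => (K1 + 10 * K) * (Real.log U / U) + (K1 + 10 * K) * U⁻¹) atTop (𝓝 ((K1 + 10 * K) * 0 + (K1 + 10 * K) * 0)) := by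
      apply Tendsto.add
      · exact (Real.isLittleO_log_id_atTop.tendsto_div_nhds_zero).const_mul _
      · exact tendsto_inv_atTop_zero.const_mul _
    rw [mul_zero, add_zero] at h5
    have h6 := h5.eventually (ge_mem_nhds (show (0:ℝ) < 1 by norm_num))
    filter_upwards [h6, eventually_ge_atTop (Real.exp 1)] with U b1 b2
    have hU0 : 0 < U := (Real.exp_pos 1).trans_le b2
    have hl : 1 ≤ Real.log U := by rwa [Real.le_log_iff_exp_le hU0]
    have h7 : Real.log U ^ (1 / 10 : ℝ) ≤ Real.log U := by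
      calc Real.log U ^ (1 / 10 : ℝ) ≤ Real.log U ^ (1 : ℝ) := Real.rpow_le_rpow_of_exponent_le hl (by norm_num)
        _ = _ := Real.rpow_one _
    have h8 : (K1 + 10 * K) * (Real.log U + 1) ≤ U := by
      have := mul_le_mul_of_nonneg_right b1 hU0.le
      calc (K1 + 10 * K) * (Real.log U + 1) = ((K1 + 10 * K) * (Real.log U / U) + (K1 + 10 * K) * U⁻¹) * U := by
            field_simp
        _ ≤ 1 * U := this
        _ = U := one_mul U
    have h9 := mul_le_mul_of_nonneg_left h7 (show 0 ≤ 10 * K by positivity)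
    nlinarith
  obtain ⟨Us, hUs⟩ := eventually_atTop.1 (hlogU.and (hTU.and ((win_small K).and ((ev_U hK hK1).and (eventually_ge_atTop (100 : ℝ))))))
  -- the conditions on `H`
  have hVt : ∀ᶠ H : ℝ in atTop, V1 ≤ Real.exp (Real.log H ^ (1 / 2 - e)) := by
    have h5 : Tendsto (fun H : ℝ => Real.exp (Real.log H ^ (1 / 2 - e))) atTop atTop :=
      Real.tendsto_exp_atTop.comp ((tendsto_rpow_atTop (by linarith)).comp Real.tendsto_log_atTop)
    exact h5.eventually (eventually_ge_atTop V1)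
  obtain ⟨Hs, hHs⟩ := eventually_atTop.1 (hVt.and ((ev_H hδ hδ2 heδ c (Real.exp b + 2 * Real.sqrt x0 + 1)).and ((eventually_ge_atTop H1).and
    ((eventually_ge_atTop (1 : ℝ)).and ((eventually_ge_atTop (T0 : ℝ)).and ((eventually_gt_atTop (K1 + 10 * K * Real.log (max Us 1) ^ (1 / 10 : ℝ))).and
    (eventually_gt_atTop K1)))))))
  obtain ⟨a1, a2, a3, a4, a5, a6, a7⟩ := hHs Hs le_rfl
  set H := Hs with hH
  set V := Real.exp (Real.log H ^ (1 / 2 - e)) with hV
  -- a good `t`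
  have hpos : 0 < volume {t : ℝ | H ≤ t ∧ t ≤ H + H ∧
      (∃ n : ℕ, 1 ≤ n ∧ (n : ℝ) ≤ H ^ (1 / 8 : ℝ) ∧ V * Real.sqrt n < ‖Pool.Agent.IT.Sw Pool.Agent.IT.muc t n‖) ∧
      ∃ n : ℕ, 1 ≤ n ∧ (n : ℝ) ≤ H ^ (1 / 8 : ℝ) ∧ V * Real.sqrt n < ‖Pool.Agent.IT.Sw Pool.Agent.IT.lac t n‖} :=
    lt_of_lt_of_le (ENNReal.ofReal_pos.2 (by positivity)) (hlv H a3 V a1 le_rfl H)
  obtain ⟨t, ht1, ht2, ⟨n, hn1, hn2, hn3⟩, -⟩ := nonempty_of_measure_ne_zero hpos.ne'
  have ht0 : 0 < t := by linarith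
  obtain ⟨w, hw1, hw2⟩ := hunb t
  obtain ⟨U, hU1, hUt, hUv⟩ := first_time hc (by linarith : |θ1 b| < t) ⟨w, hw1, hw2.le⟩
  have hUUs : Us ≤ U := by
    by_contra h
    have h := not_le.1 h
    have h5 := hs U hU1.le
    have h6 : Real.log U ^ (1 / 10 : ℝ) ≤ Real.log (max Us 1) ^ (1 / 10 : ℝ) :=
      Real.rpow_le_rpow (Real.log_nonneg (by linarith)) (Real.log_le_log (by linarith) (h.le.trans (le_max_left _ _))) (by norm_num)
    have h7 := mul_le_mul_of_nonneg_left h6 (show 0 ≤ 10 * K by positivity)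
    linarith
  obtain ⟨b1, b2, b3, b4, b5⟩ := hUs U hUUs
  have b1a : b ≤ U - 3 * Real.log U := b1
  have hlU : 0 ≤ Real.log U := Real.log_nonneg (by linarith)
  set W := 4 * U * Real.exp (Real.sqrt (Real.log U)) with hW
  have hUW : U ≤ W := by
    have : 1 ≤ Real.exp (Real.sqrt (Real.log U)) := Real.one_le_exp (Real.sqrt_nonneg _)
    rw [hW]; nlinarith
  set s := θ1 U with hsdef
  have htle : t ≤ K1 + 10 * K * Real.log U ^ (1 / 10 : ℝ) := by rw [← hUt]; exact hs U hU1.le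
  have htU : t ≤ U := htle.trans b2
  -- the speed on the window
  have hwin : ∀ v ∈ Set.Icc (U - 3 * Real.log U) W, |θ1 v - s| ≤ 1 / 4 := by
    intro v hv
    have hv1 : |θ1 v - θ1 (U - 3 * Real.log U)| ≤ 1 / 8 := by
      refine (var_le hb hd h2 b1a hv.1).trans (le_trans ?_ b3)
      apply mul_le_mul_of_nonneg_left _ (by positivity)
      have h5 : Real.log v ^ (1 / 10 : ℝ) ≤ Real.log W ^ (1 / 10 : ℝ) :=
        Real.rpow_le_rpow (Real.log_nonneg (by linarith [hv.1])) (Real.log_le_log (by linarith [hv.1]) hv.2) (by norm_num)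
      linarith
    have hv2 : |θ1 U - θ1 (U - 3 * Real.log U)| ≤ 1 / 8 := by
      refine (var_le hb hd h2 b1a (by linarith)).trans (le_trans ?_ b3)
      apply mul_le_mul_of_nonneg_left _ (by positivity)
      have h5 : Real.log U ^ (1 / 10 : ℝ) ≤ Real.log W ^ (1 / 10 : ℝ) :=
        Real.rpow_le_rpow hlU (Real.log_le_log (by linarith) hUW) (by norm_num)
      linarith
    have h5 : θ1 v - s = (θ1 v - θ1 (U - 3 * Real.log U)) - (θ1 U - θ1 (U - 3 * Real.log U)) := by rw [hsdef]; ring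
    rw [h5]
    refine (abs_sub _ _).trans ?_
    linarith
  -- the bound on the modulated sum up to `e^W`
  set C := Real.sqrt x0 + Real.exp (Real.log (2 * H + 1) ^ (1 / 2 - δ)) with hC
  have hFC : ∀ x : ℝ, 1 ≤ x → x ≤ Real.exp W → ‖modulated mo θ x‖ ≤ C * Real.sqrt x := by
    intro x hx1' hx2'
    have hsq := Real.sqrt_nonneg x
    rcases le_total x0 x with h | h
    · obtain ⟨v, hv1, hv2, hv3⟩ := hneg x h
      refine hv3.trans (mul_le_mul_of_nonneg_right ?_ hsq)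
      have hlxW : Real.log x ≤ W := (Real.log_le_iff_le_exp (by linarith)).2 hx2'
      have h5 : |θ1 v| ≤ 2 * H + 1 := by
        rcases le_total v U with h6 | h6
        · have := hUv v ⟨hv1, h6⟩
          linarith
        · have h7 := hwin v ⟨by linarith, hv2.trans hlxW⟩
          have h8 : |θ1 v| ≤ |s| + |θ1 v - s| := by
            have := abs_add_le s (θ1 v - s)
            rwa [add_sub_cancel] at this
          linarith
      have h6 : Real.posLog |θ1 v| ≤ Real.log (2 * H + 1) := by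
        have h7 : Real.posLog |θ1 v| ≤ Real.posLog (2 * H + 1) := Real.posLog_le_posLog (abs_nonneg _) h5
        refine h7.trans (le_of_eq ?_)
        unfold Real.posLog
        exact max_eq_right (Real.log_nonneg (by linarith))
      have h7 : Real.exp (Real.posLog |θ1 v| ^ (1 / 2 - δ)) ≤ Real.exp (Real.log (2 * H + 1) ^ (1 / 2 - δ)) :=
        Real.exp_le_exp.2 (Real.rpow_le_rpow Real.posLog_nonneg h6 hp0)
      linarith [Real.sqrt_nonneg x0]
    · refine (mod_le ha θ (by linarith : (0:ℝ) ≤ x)).trans ?_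
      have h1 : x = Real.sqrt x * Real.sqrt x := (Real.mul_self_sqrt (by linarith)).symm
      have h3 : Real.sqrt x ≤ C := (Real.sqrt_le_sqrt h).trans (by rw [hC]; linarith [Real.exp_pos (Real.log (2 * H + 1) ^ (1 / 2 - δ))])
      calc x = Real.sqrt x * Real.sqrt x := h1
        _ ≤ _ := mul_le_mul_of_nonneg_right h3 hsq
  have hC0 : 0 ≤ C := by rw [hC]; positivity
  -- the bound on the window
  have hA : ∀ x : ℝ, U ≤ x → x ≤ W → ‖modulated mo (fun u => s * u) (Real.exp x)‖ ≤ (Real.exp b + 2 * C) * Real.exp (x / 2) := by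
    intro x hxU hxW
    have h5 := window ha hb0 hθ' hc b5 b1a hUv (by rw [hUt]) htU hwin hFC (Real.exp_le_exp.2 hxU) (Real.exp_le_exp.2 hxW)
    have h6 : Real.sqrt (Real.exp x) = Real.exp (x / 2) := by
      rw [Real.sqrt_eq_rpow, ← Real.exp_mul]; congr 1; ring
    rw [h6] at h5
    have h7 : 1 ≤ Real.exp (x / 2) := Real.one_le_exp (by linarith)
    nlinarith [Real.exp_pos b]
  -- the core
  set T := ⌈t⌉₊ with hT
  have hTt : t ≤ T := Nat.le_ceil t
  have hTt1 : (T : ℝ) < t + 1 := Nat.ceil_lt_add_one ht0.le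
  have hcond : (T : ℝ) ^ 4 * (1 + Real.log (Real.log U)) ≤ Real.sqrt (Real.log U) := by
    refine le_trans ?_ b4
    by_cases hll : 0 ≤ 1 + Real.log (Real.log U)
    · apply mul_le_mul_of_nonneg_right _ hll
      apply pow_le_pow_left₀ (Nat.cast_nonneg T)
      linarith
    · have h5 : (T : ℝ) ^ 4 * (1 + Real.log (Real.log U)) ≤ 0 := mul_nonpos_of_nonneg_of_nonpos (by positivity) (not_le.1 hll).le
      exfalso
      have : Real.exp 1 ≤ U := by linarith [Real.exp_one_lt_three]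
      have h6 : 1 ≤ Real.log U := by rwa [Real.le_log_iff_exp_le (by linarith)]
      have := Real.log_nonneg h6
      linarith
  have hnT : n ≤ T := by
    have h5 : (n : ℝ) ≤ t := by
      refine hn2.trans (le_trans ?_ ht1)
      calc H ^ (1 / 8 : ℝ) ≤ H ^ (1 : ℝ) := Real.rpow_le_rpow_of_exponent_le a4 (by norm_num)
        _ = H := Real.rpow_one H
    exact_mod_cast h5.trans hTt
  have hUe : Real.exp 1 ≤ U := by linarith [Real.exp_one_lt_three]
  have hT0T : T0 ≤ T := by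
    have : (T0 : ℝ) ≤ T := by linarith
    exact_mod_cast this
  have hfin := hcore T hT0T s U (Real.exp b + 2 * C) (by rw [hUt]; exact hTt) hUe hB hcond (by positivity)
    (fun x h1 h2 => by rw [← Gt_eq]; exact hA x h1 h2) n hn1 hnT
  rw [← Gt_eq, ← norm_Sw hUt] at hfin
  have hsn : 0 < Real.sqrt n := Real.sqrt_pos.2 (by exact_mod_cast (by omega : 0 < n))
  have h10 : V < c * (Real.exp b + 2 * C + 1) := by
    by_contra h
    have h := not_lt.1 h
    have := mul_le_mul_of_nonneg_right h hsn.le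
    linarith
  have h11 : c * (Real.exp b + 2 * C + 1) = c * (Real.exp b + 2 * Real.sqrt x0 + 1 + 2 * Real.exp (Real.log (2 * H + 1) ^ (1 / 2 - δ))) := by
    rw [hC]; ring
  linarith

end Pool.Agent.Helper50.CG
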