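import Pool.Agent.Helper50.CH.Main

/-!
# Slowly modulated sums, derivatives only for `u ≥ b`: change of modulation and the window lemma
-/

set_option autoImplicit false

open Finset MeasureTheory Filter Topology
open Pool.Agent.Helper50.CH (ps modulated cw sum_cw mod_le mod_sub norm_ph)

namespace Pool.Agent.Helper50.CG

/-- change of the modulation between `α` and `β` -/
theorem seg {a : ℕ → ℤ} {θ θ1 η η1 : ℝ → ℝ} {b α β C D : ℝ} (hb : 0 ≤ b) (hα : Real.exp b ≤ α) (hαβ : α ≤ β)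
    (hθ : ∀ u : ℝ, b ≤ u → HasDerivAt θ (θ1 u) u) (hη : ∀ u : ℝ, b ≤ u → HasDerivAt η (η1 u) u)
    (hθc : ∀ u : ℝ, b ≤ u → ContinuousAt θ1 u) (hηc : ∀ u : ℝ, b ≤ u → ContinuousAt η1 u)
    (hD : ∀ u ∈ Set.Icc (Real.log α) (Real.log β), |η1 u - θ1 u| ≤ D)
    (hC : ∀ x : ℝ, 1 ≤ x → x ≤ β → ‖modulated a θ x‖ ≤ C * Real.sqrt x) :
    ‖modulated a η β‖ ≤ ‖modulated a η α‖ + (C * Real.sqrt β + C * Real.sqrt α + 2 * D * C * Real.sqrt β) := by
  have hα1 : 1 ≤ α := (Real.one_le_exp hb).trans hα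
  have hpos : ∀ u ∈ Set.Icc (Real.log α) (Real.log β), b ≤ u := by
    intro u hu
    exact ((Real.le_log_iff_exp_le (by linarith)).2 hα).trans hu.1
  have h1 := ps (c := cw a θ) (p := fun u => η u - θ u) (q := fun u => η1 u - θ1 u) hα1 hαβ
    (fun u hu => (hη u (hpos u hu)).sub (hθ u (hpos u hu)))
    (fun u hu => ((hηc u (hpos u hu)).sub (hθc u (hpos u hu))).continuousWithinAt) hD
    (fun t ht => by rw [sum_cw]; exact hC t (hα1.trans ht.1) ht.2)
  have h2 : modulated a η β = modulated a η α + ∑ k ∈ Ioc ⌊α⌋₊ ⌊β⌋₊, Complex.exp (Complex.I * ((η (Real.log k) - θ (Real.log k) : ℝ) : ℂ)) * cw a θ k := by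
    rw [← sub_eq_iff_eq_add', mod_sub a η hαβ]
    refine Finset.sum_congr rfl fun k hk => ?_
    have hk0 : k ≠ 0 := by have := (Finset.mem_Ioc.1 hk).1; omega
    unfold cw
    rw [if_neg hk0, mul_left_comm, ← Complex.exp_add]
    congr 2
    push_cast
    ring
  rw [h2]
  exact (norm_add_le _ _).trans (add_le_add le_rfl h1)

/-- if the modulated sum is at most `C √x` up to `e^W` and its speed is within `1/4` of `s` on `[U - 3 log U, W]`, then the sum with the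
phase `n^{is}` is at most `e^b + 2 C √x` on the window `[e^U, e^W]` -/
theorem window {a : ℕ → ℤ} (ha : ∀ n, |(a n : ℝ)| ≤ 1) {θ θ1 : ℝ → ℝ} {b C U W T s : ℝ} (hb : 0 ≤ b)
    (hθ : ∀ u : ℝ, b ≤ u → HasDerivAt θ (θ1 u) u) (hθc : ∀ u : ℝ, b ≤ u → ContinuousAt θ1 u)
    (hU : 100 ≤ U) (hU2 : b ≤ U - 3 * Real.log U) (hT : ∀ u ∈ Set.Icc b U, |θ1 u| ≤ T) (hs : |s| ≤ T) (hTU : T ≤ U)
    (hD : ∀ u ∈ Set.Icc (U - 3 * Real.log U) W, |θ1 u - s| ≤ 1 / 4)
    (hC : ∀ x : ℝ, 1 ≤ x → x ≤ Real.exp W → ‖modulated a θ x‖ ≤ C * Real.sqrt x) {x : ℝ} (hx1 : Real.exp U ≤ x) (hx2 : x ≤ Real.exp W) :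
    ‖modulated a (fun u => s * u) x‖ ≤ Real.exp b + 2 * C * Real.sqrt x := by
  have hx0 : 0 < x := (Real.exp_pos _).trans_le hx1
  have hU0 : 0 < U := by linarith
  have hlogU : 0 ≤ Real.log U := Real.log_nonneg (by linarith)
  set α : ℝ := Real.exp (U - 3 * Real.log U) with hαdef
  have hα1 : Real.exp b ≤ α := Real.exp_le_exp.2 hU2
  have hαU : α ≤ Real.exp U := Real.exp_le_exp.2 (by linarith)
  have hαx : α ≤ x := hαU.trans hx1
  have he : (1 : ℝ) ≤ Real.exp b := Real.one_le_exp hb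
  have hC0 : 0 ≤ C := by
    have h1 := (norm_nonneg _).trans (hC 1 le_rfl (by linarith [he.trans (hα1.trans (hαx.trans hx2))]))
    rwa [Real.sqrt_one, mul_one] at h1
  have hT0 : 0 ≤ T := (abs_nonneg _).trans hs
  have hη : ∀ u : ℝ, b ≤ u → HasDerivAt (fun u => s * u) s u := fun u _ => by
    simpa using (hasDerivAt_id u).const_mul s
  have hηc : ∀ u : ℝ, b ≤ u → ContinuousAt (fun _ : ℝ => s) u := fun u _ => continuousAt_const
  -- from `e^b` to `α`
  have h1 := seg (a := a) (η := fun u => s * u) (η1 := fun _ => s) hb le_rfl hα1 hθ hη hθc hηc (D := 2 * T) (fun u hu => by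
      rw [Real.log_exp, hαdef, Real.log_exp] at hu
      have h2 := hT u ⟨hu.1, by linarith [hu.2]⟩
      calc |s - θ1 u| ≤ |s| + |θ1 u| := abs_sub _ _
        _ ≤ 2 * T := by linarith) (fun y hy hy2 => hC y hy (hy2.trans (hαx.trans hx2)))
  have h1' := mod_le ha (fun u => s * u) (Real.exp_pos b).le
  -- from `α` to `x`
  have h2 := seg (a := a) (η := fun u => s * u) (η1 := fun _ => s) hb hα1 hαx hθ hη hθc hηc (D := 1 / 4) (fun u hu => by
      rw [hαdef, Real.log_exp] at hu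
      rw [abs_sub_comm]
      exact hD u ⟨hu.1, hu.2.trans ((Real.log_le_iff_le_exp hx0).2 hx2)⟩) (fun y hy hy2 => hC y hy (hy2.trans hx2))
  have hse : Real.sqrt (Real.exp b) ≤ Real.sqrt α := Real.sqrt_le_sqrt hα1
  -- `√α ≤ √x U^{-3/2}`
  have h3 : (3 + 4 * T) * Real.sqrt α ≤ 1 / 2 * Real.sqrt x := by
    have h4 : Real.sqrt α = Real.sqrt (Real.exp U) * (U * Real.sqrt U)⁻¹ := by
      have h5 : α = Real.exp U * (U ^ 3)⁻¹ := by
        rw [hαdef, Real.exp_sub, show (3 : ℝ) * Real.log U = Real.log U * (3 : ℕ) by push_cast; ring, Real.exp_mul, Real.exp_log hU0,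
          Real.rpow_natCast, div_eq_mul_inv]
      rw [h5, Real.sqrt_mul (Real.exp_pos _).le, Real.sqrt_inv]
      congr 2
      rw [show U ^ 3 = U ^ 2 * U by ring, Real.sqrt_mul (by positivity), Real.sqrt_sq hU0.le]
    have h6 : Real.sqrt (Real.exp U) ≤ Real.sqrt x := Real.sqrt_le_sqrt hx1
    have h7 : 10 ≤ Real.sqrt U := by
      rw [show (10 : ℝ) = Real.sqrt 100 by rw [show (100 : ℝ) = 10 ^ 2 by norm_num, Real.sqrt_sq (by norm_num)]]
      exact Real.sqrt_le_sqrt hU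
    have h8 : (3 + 4 * T) * (U * Real.sqrt U)⁻¹ ≤ 1 / 2 := by
      rw [← div_eq_mul_inv, div_le_iff₀ (by positivity)]
      nlinarith
    rw [h4]
    calc (3 + 4 * T) * (Real.sqrt (Real.exp U) * (U * Real.sqrt U)⁻¹) = ((3 + 4 * T) * (U * Real.sqrt U)⁻¹) * Real.sqrt (Real.exp U) := by ring
      _ ≤ 1 / 2 * Real.sqrt x := mul_le_mul h8 h6 (Real.sqrt_nonneg _) (by norm_num)
  have h5 := mul_le_mul_of_nonneg_left h3 hC0
  have h6 := mul_le_mul_of_nonneg_left hse hC0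
  nlinarith [Real.sqrt_nonneg α, Real.sqrt_nonneg x]

end Pool.Agent.Helper50.CG
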